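import Mathlib

theorem Pool.Agent.Lib.Rlz.natBle : True := by
  have := @Nat.ble.eq_def
  trivial
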